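import Mathlib
import Pool.Agent.Q84.LU.AGM
import Pool.Agent.Q77.LU.StmV

/-!
# Project LU of helper77, uniform version: job AGMU (exponential decay of almost minimal functions away
from the torons, with constants polynomial in the size of the lattice)
-/

set_option autoImplicit false

namespace Pool.Agent.Q154.LU.AGMU

open MeasureTheory Matrix Set Filter Topology
open scoped ContDiff Matrix.Norms.Frobenius
open Pool.Agent.Q77.LU
open Pool.Agent.Q84.LU.AGM

noncomputable section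

set_option linter.unusedSectionVars false

variable {N n D l : ℕ} [NeZero l] {G : Subgroup (UU N)}

/-- the derivative of the smooth transition is bounded -/
lemma st_bound : ∃ K : ℝ, 0 ≤ K ∧ ∀ x, |deriv Real.smoothTransition x| ≤ K := by
  have hc : Continuous (deriv Real.smoothTransition) :=
    (Real.smoothTransition.contDiff (n := 1)).continuous_deriv (by simp)
  obtain ⟨K, hK⟩ := (isCompact_Icc (a := (0 : ℝ)) (b := 1)).exists_bound_of_continuousOn
    hc.continuousOn
  have hK0 : 0 ≤ K := (norm_nonneg _).trans (hK 0 ⟨le_rfl, zero_le_one⟩)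
  refine ⟨K, hK0, fun x => ?_⟩
  by_cases h0 : x < 0
  · have h1 : Real.smoothTransition =ᶠ[𝓝 x] fun _ => 0 := by
      filter_upwards [gt_mem_nhds h0] with y hy
      exact Real.smoothTransition.zero_of_nonpos (le_of_lt hy)
    rw [h1.deriv_eq, deriv_const, abs_zero]
    exact hK0
  · by_cases h1 : 1 < x
    · have h2 : Real.smoothTransition =ᶠ[𝓝 x] fun _ => 1 := by
        filter_upwards [lt_mem_nhds h1] with y hy
        exact Real.smoothTransition.one_of_one_le (le_of_lt hy)
      rw [h2.deriv_eq, deriv_const, abs_zero]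
      exact hK0
    · exact hK x ⟨not_lt.1 h0, not_lt.1 h1⟩

lemma deriv_step_le {K : ℝ} (hK : ∀ x, |deriv Real.smoothTransition x| ≤ K) {a b : ℝ}
    (hab : a < b) (x : ℝ) : |deriv (step a b) x| ≤ K / (b - a) := by
  have h1 : HasDerivAt (step a b) (deriv Real.smoothTransition ((x - a) / (b - a)) *
      (1 / (b - a))) x := by
    have h2 : DifferentiableAt ℝ Real.smoothTransition ((x - a) / (b - a)) :=
      (Real.smoothTransition.contDiff (n := 1)).differentiable (by simp) _
    exact h2.hasDerivAt.comp x (((hasDerivAt_id x).sub_const a).div_const (b - a))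
  have hba : 0 < b - a := by linarith
  rw [h1.deriv, abs_mul, abs_of_pos (by positivity : 0 < 1 / (b - a))]
  calc |deriv Real.smoothTransition ((x - a) / (b - a))| * (1 / (b - a)) ≤
        K * (1 / (b - a)) := mul_le_mul_of_nonneg_right (hK _) (by positivity)
    _ = K / (b - a) := by ring

section ims

variable [MeasurableSpace G] [BorelSpace G] (μ : Measure G) [IsProbabilityMeasure μ]
  [μ.IsHaarMeasure]

lemma den_ims (B : LieBasis G n) (g : ℝ) {q : ℝ → ℝ} (hq : ContDiff ℝ ∞ q)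
    {τ F : (Link D l → G) → ℝ} (hτ : IsSmooth τ) (hF : IsSmooth F) (U : Link D l → G) :
    den2 B g (fun U => Real.cos (q (τ U)) * F U) (fun U => Real.cos (q (τ U)) * F U) U +
      den2 B g (fun U => Real.sin (q (τ U)) * F U) (fun U => Real.sin (q (τ U)) * F U) U =
      den2 B g F F U + g ^ 2 / 2 * (gam B q τ U * F U ^ 2) := by
  have hqd : Differentiable ℝ q := hq.differentiable (by simp)
  have hθ : IsSmooth (fun U => q (τ U)) := hτ.comp hq
  have hd : ∀ e a, dlink B e a (fun U => q (τ U)) U = deriv q (τ U) * dlink B e a τ U := fun e a =>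
    dlink_comp B hqd hτ e a U
  have h1 : ∀ e a, dlink B e a (fun U => Real.cos (q (τ U))) U =
      -Real.sin (q (τ U)) * (deriv q (τ U) * dlink B e a τ U) := by
    intro e a
    have := dlink_comp B Real.differentiable_cos hθ e a U
    rw [this, Real.deriv_cos, hd]
  have h2 : ∀ e a, dlink B e a (fun U => Real.sin (q (τ U))) U =
      Real.cos (q (τ U)) * (deriv q (τ U) * dlink B e a τ U) := by
    intro e a
    have := dlink_comp B Real.differentiable_sin hθ e a U
    rw [this, Real.deriv_sin, hd]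
  have h3 := Real.sin_sq_add_cos_sq (q (τ U))
  have hs : (∑ e : Link D l, ∑ a : Fin n, dlink B e a (fun U => Real.cos (q (τ U)) * F U) U *
        dlink B e a (fun U => Real.cos (q (τ U)) * F U) U) +
      (∑ e : Link D l, ∑ a : Fin n, dlink B e a (fun U => Real.sin (q (τ U)) * F U) U *
        dlink B e a (fun U => Real.sin (q (τ U)) * F U) U) =
      (∑ e : Link D l, ∑ a : Fin n, dlink B e a F U * dlink B e a F U) +
        deriv q (τ U) ^ 2 * (∑ e : Link D l, ∑ a : Fin n, dlink B e a τ U ^ 2) * F U ^ 2 := by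
    simp only [Finset.mul_sum, Finset.sum_mul, ← Finset.sum_add_distrib]
    refine Finset.sum_congr rfl fun e _ => Finset.sum_congr rfl fun a _ => ?_
    rw [dlink_mul B (hθ.comp Real.contDiff_cos) hF, dlink_mul B (hθ.comp Real.contDiff_sin) hF,
      h1, h2]
    linear_combination ((deriv q (τ U) * dlink B e a τ U * F U) ^ 2 + dlink B e a F U ^ 2) * h3
  unfold den2 gam
  linear_combination g ^ 2 / 2 * hs + 1 / g ^ 2 * magnetic U * F U ^ 2 * h3

lemma ims (hG : IsClosed (G : Set (UU N))) (B : LieBasis G n) (g : ℝ) {q : ℝ → ℝ}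
    (hq : ContDiff ℝ ∞ q) {τ F : (Link D l → G) → ℝ} (hτ : IsSmooth τ) (hF : IsSmooth F)
    {K : ℝ} (hK : ∀ U, gam B q τ U ≤ K) :
    energy B μ g (fun U => Real.cos (q (τ U)) * F U) +
      energy B μ g (fun U => Real.sin (q (τ U)) * F U) ≤
      energy B μ g F + K / 2 * g ^ 2 * ∫ U, F U ^ 2 ∂(Measure.pi fun _ : Link D l => μ) := by
  have hθ : IsSmooth (fun U => q (τ U)) := hτ.comp hq
  have hc : IsSmooth fun U => Real.cos (q (τ U)) * F U := (hθ.comp Real.contDiff_cos).mul hF
  have hs : IsSmooth fun U => Real.sin (q (τ U)) * F U := (hθ.comp Real.contDiff_sin).mul hF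
  have iden : ∀ {F : (Link D l → G) → ℝ}, IsSmooth F →
      Integrable (den2 B g F F) (Measure.pi fun _ : Link D l => μ) := fun hF =>
    integrable_links μ hG (den2_cont B g hF hF)
  have hF2 : Integrable (fun U => F U ^ 2) (Measure.pi fun _ : Link D l => μ) :=
    integrable_links μ hG (hF.continuous.pow 2)
  rw [energy_eq μ hG B g hc, energy_eq μ hG B g hs, energy_eq μ hG B g hF,
    ← integral_add (iden hc) (iden hs), ← integral_const_mul,
    ← integral_add (iden hF) (hF2.const_mul _)]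
  apply integral_mono ((iden hc).add (iden hs)) ((iden hF).add (hF2.const_mul _))
  intro U
  have h1 := den_ims B g hq hτ hF U
  have h2 : gam B q τ U * F U ^ 2 ≤ K * F U ^ 2 :=
    mul_le_mul_of_nonneg_right (hK U) (sq_nonneg _)
  have h3 : g ^ 2 / 2 * (gam B q τ U * F U ^ 2) ≤ g ^ 2 / 2 * (K * F U ^ 2) :=
    mul_le_mul_of_nonneg_left h2 (by positivity)
  change den2 B g (fun U => Real.cos (q (τ U)) * F U) (fun U => Real.cos (q (τ U)) * F U) U +
      den2 B g (fun U => Real.sin (q (τ U)) * F U) (fun U => Real.sin (q (τ U)) * F U) U ≤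
      den2 B g F F U + K / 2 * g ^ 2 * F U ^ 2
  rw [h1]
  linarith

/-- the squared gradient of a step of `tau` -/
lemma gam_le (B : LieBasis G n) {q : ℝ → ℝ} {τ : (Link D l → G) → ℝ} {a b : ℝ}
    (hb : 0 ≤ b) (hq : ∀ x, |deriv q x| ≤ b)
    (ha : ∀ U, ∑ e : Link D l, ∑ a : Fin n, dlink B e a τ U ^ 2 ≤ a) (U : Link D l → G) :
    gam B q τ U ≤ b ^ 2 * a := by
  unfold gam
  have h1 : deriv q (τ U) ^ 2 ≤ b ^ 2 := by
    rw [← sq_abs]
    exact pow_le_pow_left₀ (abs_nonneg _) (hq _) 2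
  exact mul_le_mul h1 (ha U) (Finset.sum_nonneg fun e _ => Finset.sum_nonneg fun a _ => sq_nonneg _)
    (sq_nonneg _)

/-- the decay for one lattice with all constants explicit -/
theorem core (hG : IsClosed (G : Set (UU N))) (B : LieBasis G n)
    (hτs : IsSmooth (tau B : (Link D l → G) → ℝ)) (hτg : GaugeInv (tau B : (Link D l → G) → ℝ))
    {δ η M K g e0 : ℝ} (hδ : 0 < δ) (hη : 0 < η) (hM0 : 0 ≤ M)
    (hM2 : ∀ U, gam B (step (δ / 2) δ) (tau B : (Link D l → G) → ℝ) U ≤ M) (hg : 0 < g)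
    (hAW : ∀ F : (Link D l → G) → ℝ, IsSmooth F → (∀ U, F U ≠ 0 → δ / 4 ≤ tau B U) →
      (e0 + η) * (∫ U, F U ^ 2 ∂(Measure.pi fun _ : Link D l => μ)) ≤ energy B μ g F)
    (hIMS : ∀ F : (Link D l → G) → ℝ, IsSmooth F →
      energy B μ g (fun U => Real.cos (Real.pi / 2 * step (δ / 4) (δ / 2) (tau B U)) * F U) +
      energy B μ g (fun U => Real.sin (Real.pi / 2 * step (δ / 4) (δ / 2) (tau B U)) * F U) ≤
      energy B μ g F + K * g ^ 2 * ∫ U, F U ^ 2 ∂(Measure.pi fun _ : Link D l => μ))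
    (hE0u : glevel D l B μ g 0 ≤ e0 + η / 4) (hKg : K * g ^ 2 ≤ η / 8) :
    ∃ d : ℝ, 0 < d ∧ ∀ F : (Link D l → G) → ℝ, IsSmooth F → GaugeInv F →
      ∫ U, F U ^ 2 ∂(Measure.pi fun _ : Link D l => μ) = 1 →
      energy B μ g F ≤ glevel D l B μ g 0 + d →
      ∫ U in {U | δ ≤ tau B U}, F U ^ 2 ∂(Measure.pi fun _ : Link D l => μ) ≤
        (2 / η + 1 / 4) * Real.exp (-(2 * Real.sqrt (η / (4 * (M + 1)))) / g) := by
  have hcG := compactG hG
  have hscG := sctG (G := G)
  have hτc : Continuous (tau B : (Link D l → G) → ℝ) := hτs.continuous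
  set P : Measure (Link D l → G) := Measure.pi fun _ : Link D l => μ with hP
  -- the weight
  have hab : δ / 2 < δ := by linarith
  have hgc : Continuous (gam B (step (δ / 2) δ) (tau B : (Link D l → G) → ℝ)) := by
    unfold gam
    apply Continuous.mul
    · have h8 : Continuous (deriv (step (δ / 2) δ)) :=
        (step_smooth _ _).continuous_deriv (by simp)
      exact (h8.comp hτc).pow 2
    · exact continuous_finsetSum _ fun e _ => continuous_finsetSum _ fun a _ =>
        (hτs.dlink B e a).continuous.pow 2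
  set c0 : ℝ := Real.sqrt (η / (4 * (M + 1))) with hc0
  have hc0p : 0 < c0 := Real.sqrt_pos.2 (by positivity)
  have hc0s : c0 ^ 2 = η / (4 * (M + 1)) := Real.sq_sqrt (by positivity)
  set p : ℝ → ℝ := fun x => c0 * step (δ / 2) δ x with hp
  have hps : ContDiff ℝ ∞ p := contDiff_const.mul (step_smooth _ _)
  have hgam : ∀ U, gam B p (tau B : (Link D l → G) → ℝ) U =
      c0 ^ 2 * gam B (step (δ / 2) δ) (tau B : (Link D l → G) → ℝ) U := by
    intro U
    unfold gam
    have h8 : deriv p (tau B U) = c0 * deriv (step (δ / 2) δ) (tau B U) := by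
      rw [hp]
      exact deriv_const_mul _ (((step_smooth _ _).differentiable (by simp)) _)
    rw [h8]
    ring
  have hgamη : ∀ U, gam B p (tau B : (Link D l → G) → ℝ) U ≤ η / 4 := by
    intro U
    rw [hgam, hc0s]
    have h8 := hM2 U
    rw [div_mul_eq_mul_div, div_le_iff₀ (by positivity)]
    nlinarith
  have hgam0 : ∀ U, tau B U < δ / 2 → gam B p (tau B : (Link D l → G) → ℝ) U = 0 := by
    intro U hU
    rw [hgam]
    unfold gam
    rw [deriv_step hab hU]
    ring
  -- localisation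
  have hab4 : δ / 4 < δ / 2 := by linarith
  set θ : (Link D l → G) → ℝ := fun U => Real.pi / 2 * step (δ / 4) (δ / 2) (tau B U) with hθ
  have hθs : IsSmooth θ := by
    have h8 : ContDiff ℝ ∞ (fun x => Real.pi / 2 * step (δ / 4) (δ / 2) x) :=
      contDiff_const.mul (step_smooth _ _)
    exact hτs.comp h8
  have hcos : IsSmooth (fun U => Real.cos (θ U)) := hθs.comp Real.contDiff_cos
  have hsin : IsSmooth (fun U => Real.sin (θ U)) := hθs.comp Real.contDiff_sin
  set E0 : ℝ := glevel D l B μ g 0 with hE0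
  have hE0n : 0 ≤ E0 := glevel_nonneg μ hG B g
  set A : ℝ := Real.exp (4 * c0 / g) * (2 * (E0 + 1) + η) with hA
  have hAp : 0 < A := by
    rw [hA]
    have := Real.exp_pos (4 * c0 / g)
    positivity
  refine ⟨1 / (A + 1), by positivity, ?_⟩
  intro F hF hFg hF1 hFE
  have hd1 : 1 / (A + 1) ≤ 1 := by
    rw [div_le_one (by positivity)]
    linarith
  set v := wt (1 / g) p (tau B) F with hv
  set w := wt (2 / g) p (tau B) F with hw
  have hvs : IsSmooth v := wt_smooth _ hps hτs hF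
  have hws : IsSmooth w := wt_smooth _ hps hτs hF
  have hvg : GaugeInv v := wt_gi _ hτg hFg
  have hwg : GaugeInv w := wt_gi _ hτg hFg
  have iden : ∀ {F H : (Link D l → G) → ℝ}, IsSmooth F → IsSmooth H →
      Integrable (den2 B g F H) P := fun hF hH => integrable_links μ hG (den2_cont B g hF hH)
  have hv2 : Integrable (fun U => v U ^ 2) P := integrable_links μ hG (hvs.continuous.pow 2)
  have hF2 : Integrable (fun U => F U ^ 2) P := integrable_links μ hG (hF.continuous.pow 2)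
  have hgv : Integrable (fun U => gam B p (tau B) U * v U ^ 2) P := by
    apply integrable_links μ hG
    have h8 : gam B p (tau B : (Link D l → G) → ℝ) =
      fun U => c0 ^ 2 * gam B (step (δ / 2) δ) (tau B : (Link D l → G) → ℝ) U := funext hgam
    rw [h8]
    exact (continuous_const.mul hgc).mul (hvs.continuous.pow 2)
  -- energy of w
  have hwE : energy B μ g w ≤ A := by
    rw [energy_eq μ hG B g hws]
    have h8 : ∫ U, den2 B g w w U ∂P ≤
        ∫ U, Real.exp (4 * c0 / g) * (2 * den2 B g F F U + η * F U ^ 2) ∂P := by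
      apply integral_mono (iden hws hws)
      · exact (((iden hF hF).const_mul 2).add (hF2.const_mul η)).const_mul _
      · intro U
        apply den_w B g hg hps hτs hF U c0 η _ (hgamη U)
        rw [hp]
        have := step_le (δ / 2) δ (tau B U)
        have := hc0p
        change c0 * step (δ / 2) δ (tau B U) ≤ c0
        nlinarith
    refine h8.trans ?_
    rw [integral_const_mul, integral_add ((iden hF hF).const_mul 2) (hF2.const_mul η),
      integral_const_mul, integral_const_mul, hF1, hA]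
    apply mul_le_mul_of_nonneg_left _ (Real.exp_pos _).le
    rw [← energy_eq μ hG B g hF]
    linarith
  -- the form
  have hform := form_le μ hG B g hF hFg hws hwg (1 / (A + 1)) (by positivity) (1 / (A + 1)) A
    (by rw [hF1, mul_one]; linarith)
    (by
      have h8 : 0 ≤ E0 * ∫ U, w U ^ 2 ∂P :=
        mul_nonneg hE0n (integral_nonneg fun U => sq_nonneg _)
      linarith)
  have hform1 : (∫ U, den2 B g F w U ∂P) - E0 * (∫ U, F U * w U ∂P) ≤ 1 := by
    refine hform.trans ?_
    rw [div_self (by positivity : (1 : ℝ) / (A + 1) ≠ 0)]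
    have h8 : 1 / (A + 1) * A ≤ 1 := by
      rw [div_mul_eq_mul_div, one_mul, div_le_one (by positivity)]
      linarith
    linarith
  have hFw : ∀ U, F U * w U = v U ^ 2 := by
    intro U
    rw [hv, hw]
    unfold wt
    have h8 : Real.exp (2 / g * p (tau B U)) = Real.exp (1 / g * p (tau B U)) ^ 2 := by
      rw [← Real.exp_nat_mul]
      congr 1
      push_cast
      ring
    rw [h8]
    ring
  have hvE : energy B μ g v = (∫ U, den2 B g F w U ∂P) +
      1 / 2 * ∫ U, gam B p (tau B) U * v U ^ 2 ∂P := by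
    rw [energy_eq μ hG B g hvs, ← integral_const_mul, ← integral_add (iden hF hws)
      (hgv.const_mul _)]
    congr 1
    funext U
    exact den_v B g hg hps hτs hF U
  simp only [hFw] at hform1
  set V : ℝ := ∫ U, v U ^ 2 ∂P with hV
  -- the region
  set S : Set (Link D l → G) := {U | δ / 2 ≤ tau B U} with hS
  have hSm : MeasurableSet S := (isClosed_le continuous_const hτc).measurableSet
  set X : ℝ := ∫ U in S, v U ^ 2 ∂P with hX
  have hX0 : 0 ≤ X := integral_nonneg fun U => sq_nonneg _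
  have hVX : V ≤ 1 + X := by
    have h8 : X + ∫ U in Sᶜ, v U ^ 2 ∂P = V := integral_add_compl hSm hv2
    have h9 : ∫ U in Sᶜ, v U ^ 2 ∂P = ∫ U in Sᶜ, F U ^ 2 ∂P := by
      apply setIntegral_congr_fun hSm.compl
      intro U hU
      have hU2 : tau B U < δ / 2 := not_le.1 hU
      change v U ^ 2 = F U ^ 2
      rw [hv]
      unfold wt
      have h10 : p (tau B U) = 0 := by
        rw [hp]
        change c0 * step (δ / 2) δ (tau B U) = 0
        rw [step_zero hab hU2.le, mul_zero]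
      rw [h10, mul_zero, Real.exp_zero, one_mul]
    have h10 : ∫ U in Sᶜ, F U ^ 2 ∂P ≤ ∫ U, F U ^ 2 ∂P :=
      setIntegral_le_integral hF2 (Eventually.of_forall fun U => sq_nonneg _)
    rw [hF1] at h10
    linarith
  have hgX : ∫ U, gam B p (tau B) U * v U ^ 2 ∂P ≤ η / 4 * X := by
    have h8 : ∫ U, gam B p (tau B) U * v U ^ 2 ∂P ≤
        ∫ U, S.indicator (fun U => η / 4 * v U ^ 2) U ∂P := by
      apply integral_mono hgv ((hv2.const_mul _).indicator hSm)
      intro U
      by_cases hU : U ∈ S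
      · rw [Set.indicator_of_mem hU]
        exact mul_le_mul_of_nonneg_right (hgamη U) (sq_nonneg _)
      · rw [Set.indicator_of_notMem hU]
        have hU2 : tau B U < δ / 2 := not_le.1 hU
        change gam B p (tau B) U * v U ^ 2 ≤ 0
        rw [hgam0 U hU2, zero_mul]
    rw [integral_indicator hSm, integral_const_mul] at h8
    exact h8
  -- the localisation
  have hIv := hIMS v hvs
  have hcv : IsSmooth (fun U => Real.cos (θ U) * v U) := hcos.mul hvs
  have hsv : IsSmooth (fun U => Real.sin (θ U) * v U) := hsin.mul hvs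
  have hθg : ∀ γ U, θ (gauge γ U) = θ U := by
    intro γ U
    rw [hθ]
    change Real.pi / 2 * step (δ / 4) (δ / 2) (tau B (gauge γ U)) = _
    rw [hτg γ U]
  have hcg : GaugeInv (fun U => Real.cos (θ U) * v U) := by
    intro γ U
    change Real.cos (θ (gauge γ U)) * v (gauge γ U) = _
    rw [hθg, hvg γ U]
  have hlow1 := glevel_le μ hG B g hcv hcg
  have hlow2 := hAW (fun U => Real.sin (θ U) * v U) hsv (by
    intro U hU
    by_contra hlt
    apply hU
    have h8 : θ U = 0 := by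
      rw [hθ]
      change Real.pi / 2 * step (δ / 4) (δ / 2) (tau B U) = 0
      rw [step_zero hab4 (not_le.1 hlt).le, mul_zero]
    change Real.sin (θ U) * v U = 0
    rw [h8, Real.sin_zero, zero_mul])
  set Y : ℝ := ∫ U, (Real.sin (θ U) * v U) ^ 2 ∂P with hY
  have hs2 : Integrable (fun U => (Real.sin (θ U) * v U) ^ 2) P :=
    integrable_links μ hG (hsv.continuous.pow 2)
  have hc2 : Integrable (fun U => (Real.cos (θ U) * v U) ^ 2) P :=
    integrable_links μ hG (hcv.continuous.pow 2)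
  have hcY : ∫ U, (Real.cos (θ U) * v U) ^ 2 ∂P = V - Y := by
    rw [hV, hY, ← integral_sub hv2 hs2]
    congr 1
    funext U
    have := Real.sin_sq_add_cos_sq (θ U)
    have h8 : Real.cos (θ U) ^ 2 = 1 - Real.sin (θ U) ^ 2 := by linarith
    rw [mul_pow, mul_pow, h8]
    ring
  have hXY : X ≤ Y := by
    have h8 : X = ∫ U in S, (Real.sin (θ U) * v U) ^ 2 ∂P := by
      apply setIntegral_congr_fun hSm
      intro U hU
      have hU2 : δ / 2 ≤ tau B U := hU
      have h9 : θ U = Real.pi / 2 := by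
        rw [hθ]
        change Real.pi / 2 * step (δ / 4) (δ / 2) (tau B U) = _
        rw [step_one hab4 hU2, mul_one]
      change v U ^ 2 = (Real.sin (θ U) * v U) ^ 2
      rw [h9, Real.sin_pi_div_two, one_mul]
    rw [h8]
    exact setIntegral_le_integral hs2 (Eventually.of_forall fun U => sq_nonneg _)
  -- conclusion
  rw [hcY] at hlow1
  have hXC : X ≤ 2 / η + 1 / 4 := by
    have hY0 : 0 ≤ Y := hX0.trans hXY
    have hV0 : 0 ≤ V := integral_nonneg fun U => sq_nonneg _
    have h8 : (e0 + η - E0) * Y ≤ 1 + η / 8 * X + K * g ^ 2 * V := by nlinarith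
    have h9 : 3 * η / 4 * X ≤ (e0 + η - E0) * Y := by
      apply mul_le_mul _ hXY hX0
      · linarith
      · linarith
    have h10 : K * g ^ 2 * V ≤ η / 8 * (1 + X) := by
      calc K * g ^ 2 * V ≤ η / 8 * V := mul_le_mul_of_nonneg_right hKg hV0
        _ ≤ η / 8 * (1 + X) := mul_le_mul_of_nonneg_left hVX (by positivity)
    have h11 : η / 2 * X ≤ 1 + η / 8 := by linarith
    have h12 : X ≤ (1 + η / 8) / (η / 2) := by
      rw [le_div_iff₀ (by positivity)]
      linarith
    have h13 : (1 + η / 8) / (η / 2) = 2 / η + 1 / 4 := by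
      field_simp
      ring
    rw [h13] at h12
    exact h12
  have hS2m : MeasurableSet {U : Link D l → G | δ ≤ tau B U} :=
    (isClosed_le continuous_const hτc).measurableSet
  have hfin : ∫ U in {U | δ ≤ tau B U}, F U ^ 2 ∂P =
      Real.exp (-(2 * c0) / g) * ∫ U in {U | δ ≤ tau B U}, v U ^ 2 ∂P := by
    rw [← integral_const_mul]
    apply setIntegral_congr_fun hS2m
    intro U hU
    have hU2 : δ ≤ tau B U := hU
    change F U ^ 2 = Real.exp (-(2 * c0) / g) * v U ^ 2
    rw [hv]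
    unfold wt
    have h10 : p (tau B U) = c0 := by
      rw [hp]
      change c0 * step (δ / 2) δ (tau B U) = c0
      rw [step_one hab hU2, mul_one]
    rw [h10, mul_pow, ← mul_assoc, ← Real.exp_nat_mul, ← Real.exp_add]
    have h11 : -(2 * c0) / g + ((2 : ℕ) : ℝ) * (1 / g * c0) = 0 := by
      push_cast
      ring
    rw [h11, Real.exp_zero, one_mul]
  rw [hfin, mul_comm (2 / η + 1 / 4)]
  apply mul_le_mul_of_nonneg_left _ (Real.exp_pos _).le
  refine le_trans ?_ hXC
  apply setIntegral_mono_set hv2.integrableOn (Eventually.of_forall fun U => sq_nonneg _)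
  apply HasSubset.Subset.eventuallyLE
  intro U hU
  have hU2 : δ ≤ tau B U := hU
  change δ / 2 ≤ tau B U
  linarith

end ims

/-- `c Λ ^ a ≤ C Λ ^ b` -/
lemma mon {c C Λ : ℝ} {a b : ℕ} (hc : 0 ≤ c) (hcC : c ≤ C) (hΛ : 1 ≤ Λ) (hab : a ≤ b) :
    c * Λ ^ a ≤ C * Λ ^ b :=
  mul_le_mul hcC (pow_le_pow_right₀ hΛ hab) (by positivity) (hc.trans hcC)

/-- Job AGMU. -/
theorem t_AGMU (h1 : S_GRADT) (h2 : S_AWAYU) (h3 : S_HC) (h4 : S_GUPPU) (h5 : S_EZ) : S_AGMU := by
  intro N n D G hG hconn B _ _ μ _ _ hNC hD hn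
  obtain ⟨p1, C1, hC1, hGR⟩ := h1 N n D G hG B
  obtain ⟨p2, C2, hC2, hAW⟩ := h2 N n D G hG hD hn B μ
  obtain ⟨p4, hUP⟩ := h4 N n D G hG hconn B μ hNC hD hn
  obtain ⟨C4, hC4, hUP⟩ := hUP 0 1 one_pos
  obtain ⟨Ks, hKs0, hKs⟩ := st_bound
  set Lv : ℝ := |lev (vred B D) (AdS B D) (0 / Nat.card (Subgroup.center G) ^ D) + 1| with hLv
  have hLv0 : 0 ≤ Lv := abs_nonneg _
  -- constants
  set c2 : ℝ := C2 * 4 ^ p2 with hc2
  have hc21 : 1 ≤ c2 := one_le_mul_of_one_le_of_one_le hC2 (one_le_pow₀ (by norm_num))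
  set cM : ℝ := 4 * Ks ^ 2 * C1 with hcM
  have hcM0 : 0 ≤ cM := by positivity
  set cK : ℝ := 8 * Real.pi ^ 2 / 4 * Ks ^ 2 * C1 with hcK
  have hcK0 : 0 ≤ cK := by positivity
  set p : ℕ := p1 + 2 * p2 + p4 + 2 with hp
  set C : ℝ := c2 + C4 + 16 * (Lv + 1) ^ 2 * c2 ^ 2 + 8 * cK * c2 + 4 * (cM + 1) * c2 + 3 * c2
    with hC
  have q1 : 0 ≤ 16 * (Lv + 1) ^ 2 * c2 ^ 2 := by positivity
  have q2 : 0 ≤ 8 * cK * c2 := by positivity
  have q3 : 0 ≤ 4 * (cM + 1) * c2 := by positivity
  have hC1' : 1 ≤ C := by rw [hC]; linarith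
  refine ⟨p, C, hC1', ?_⟩
  intro l _ δ Λ M hl hδ hδ1 hM g hg hgM
  have hl1 : (1 : ℝ) ≤ l := by exact_mod_cast Nat.one_le_iff_ne_zero.2 (NeZero.ne l)
  have hΛ1 : 1 ≤ Λ := hl1.trans hl
  have hΛ0 : 0 < Λ := by linarith
  have hδ0 : 0 < δ := lt_of_lt_of_le (by positivity) hδ
  have hδi : δ⁻¹ ≤ Λ := by
    have := inv_anti₀ (by positivity) hδ
    rwa [inv_inv] at this
  obtain ⟨_, _, _, hτs, hτg, _, _, _, _⟩ := h3 N n D l G hG B
  -- the gap
  set X : ℝ := c2 * Λ ^ p2 with hX
  have hX1 : 1 ≤ X := one_le_mul_of_one_le_of_one_le hc21 (one_le_pow₀ hΛ1)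
  have hX0 : 0 < X := by linarith
  have hXe : C2 * (4 * Λ) ^ p2 = X := by rw [hX, hc2, mul_pow]; ring
  have hMpos : 0 < M := by rw [hM]; positivity
  have hgM2 : g * M ≤ 1 := by
    have := mul_le_mul_of_nonneg_right hgM hMpos.le
    rwa [inv_mul_cancel₀ hMpos.ne'] at this
  have hge : ∀ Z : ℝ, Z ≤ M → g * Z ≤ 1 := fun Z hZ =>
    (mul_le_mul_of_nonneg_left hZ hg.le).trans hgM2
  have m1 : X ≤ M := by
    rw [hM, hX]
    exact mon (by positivity) (by rw [hC]; linarith) hΛ1 (by omega)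
  have m2 : C4 * Λ ^ p4 ≤ M := by
    rw [hM]
    exact mon (by positivity) (by rw [hC]; linarith) hΛ1 (by omega)
  have m3 : 16 * (Lv + 1) ^ 2 * X ^ 2 ≤ M := by
    have e : 16 * (Lv + 1) ^ 2 * X ^ 2 = 16 * (Lv + 1) ^ 2 * c2 ^ 2 * Λ ^ (2 * p2) := by
      rw [hX, mul_pow, ← pow_mul]
      ring
    rw [e, hM]
    exact mon (by positivity) (by rw [hC]; linarith) hΛ1 (by omega)
  have m4 : 8 * (cK * Λ ^ (p1 + 2)) * X ≤ M := by
    have e : 8 * (cK * Λ ^ (p1 + 2)) * X = 8 * cK * c2 * Λ ^ (p1 + 2 + p2) := by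
      rw [hX, pow_add Λ (p1 + 2) p2]
      ring
    rw [e, hM]
    exact mon (by positivity) (by rw [hC]; linarith) hΛ1 (by omega)
  have m5 : 2 * (cM * Λ ^ (p1 + 2) + 1) * X ≤ M := by
    have e1 : cM * Λ ^ (p1 + 2) + 1 ≤ (cM + 1) * Λ ^ (p1 + 2) := by
      have : 1 ≤ Λ ^ (p1 + 2) := one_le_pow₀ hΛ1
      nlinarith
    have e2 : 2 * (cM * Λ ^ (p1 + 2) + 1) * X ≤ 2 * ((cM + 1) * Λ ^ (p1 + 2)) * X := by
      apply mul_le_mul_of_nonneg_right _ hX0.le
      linarith
    have e : 2 * ((cM + 1) * Λ ^ (p1 + 2)) * X = 2 * (cM + 1) * c2 * Λ ^ (p1 + 2 + p2) := by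
      rw [hX, pow_add Λ (p1 + 2) p2]
      ring
    refine e2.trans ?_
    rw [e, hM]
    have q4 : 0 ≤ (cM + 1) * c2 := by positivity
    exact mon (by positivity) (by rw [hC]; linarith) hΛ1 (by omega)
  have m6 : 2 * X + 1 / 4 ≤ M := by
    have e1 : 2 * X + 1 / 4 ≤ 3 * X := by linarith
    have e : 3 * X = 3 * c2 * Λ ^ p2 := by rw [hX]; ring
    refine e1.trans ?_
    rw [e, hM]
    exact mon (by positivity) (by rw [hC]; linarith) hΛ1 (by omega)
  have hg1 : g ≤ 1 := by
    have := hge 1 (hX1.trans m1)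
    linarith
  -- gradient bounds
  have hGl : ∀ U : Link D l → G, ∑ e, ∑ a, dlink B e a (tau B) U ^ 2 ≤ C1 * Λ ^ p1 := fun U =>
    (hGR l U).trans (mul_le_mul_of_nonneg_left (pow_le_pow_left₀ (by positivity) hl p1)
      (by positivity))
  have hst1 : ∀ x, |deriv (step (δ / 2) δ) x| ≤ 2 * Ks * Λ := by
    intro x
    refine (deriv_step_le hKs (by linarith : δ / 2 < δ) x).trans ?_
    have e : Ks / (δ - δ / 2) = 2 * Ks * δ⁻¹ := by field_simp; ring
    rw [e]
    exact mul_le_mul_of_nonneg_left hδi (by positivity)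
  have hM2 : ∀ U, gam B (step (δ / 2) δ) (tau B : (Link D l → G) → ℝ) U ≤ cM * Λ ^ (p1 + 2) := by
    intro U
    refine (gam_le B (by positivity) hst1 hGl U).trans (le_of_eq ?_)
    rw [hcM, pow_add]
    ring
  have hqs : ContDiff ℝ ∞ (fun x => Real.pi / 2 * step (δ / 4) (δ / 2) x) :=
    contDiff_const.mul (step_smooth _ _)
  have hst2 : ∀ x, |deriv (fun x => Real.pi / 2 * step (δ / 4) (δ / 2) x) x| ≤
      2 * Real.pi * Ks * Λ := by
    intro x
    have h8 : deriv (fun x => Real.pi / 2 * step (δ / 4) (δ / 2) x) x =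
        Real.pi / 2 * deriv (step (δ / 4) (δ / 2)) x :=
      deriv_const_mul _ (((step_smooth _ _).differentiable (by simp)) _)
    rw [h8, abs_mul, abs_of_pos (by positivity : 0 < Real.pi / 2)]
    have h9 := deriv_step_le hKs (by linarith : δ / 4 < δ / 2) x
    have e : Ks / (δ / 2 - δ / 4) = 4 * Ks * δ⁻¹ := by field_simp; ring
    rw [e] at h9
    have h10 : 4 * Ks * δ⁻¹ ≤ 4 * Ks * Λ := mul_le_mul_of_nonneg_left hδi (by positivity)
    calc Real.pi / 2 * |deriv (step (δ / 4) (δ / 2)) x| ≤ Real.pi / 2 * (4 * Ks * Λ) :=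
          mul_le_mul_of_nonneg_left (h9.trans h10) (by positivity)
      _ = 2 * Real.pi * Ks * Λ := by ring
  have hK2 : ∀ U, gam B (fun x => Real.pi / 2 * step (δ / 4) (δ / 2) x)
      (tau B : (Link D l → G) → ℝ) U ≤ 2 * (cK * Λ ^ (p1 + 2)) := by
    intro U
    refine (gam_le B (by positivity) hst2 hGl U).trans (le_of_eq ?_)
    rw [hcK, pow_add]
    ring
  have hIMS : ∀ F : (Link D l → G) → ℝ, IsSmooth F →
      energy B μ g (fun U => Real.cos (Real.pi / 2 * step (δ / 4) (δ / 2) (tau B U)) * F U) +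
      energy B μ g (fun U => Real.sin (Real.pi / 2 * step (δ / 4) (δ / 2) (tau B U)) * F U) ≤
      energy B μ g F + cK * Λ ^ (p1 + 2) * g ^ 2 *
        ∫ U, F U ^ 2 ∂(Measure.pi fun _ : Link D l => μ) := by
    intro F hF
    have h8 := ims μ hG B g hqs hτs hF hK2
    have e : 2 * (cK * Λ ^ (p1 + 2)) / 2 = cK * Λ ^ (p1 + 2) := by ring
    rw [e] at h8
    exact h8
  have hAW' := hAW l (δ / 4) (4 * Λ) X (by linarith) (by
    rw [mul_inv]
    linarith) (by linarith) hXe.symm g hg (by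
      rw [le_inv_comm₀ hg hX0]
      have := hge X m1
      rw [← one_div, le_div_iff₀ hg]
      linarith)
  have he0 := h5 N n D l G hG B
  -- the lowest level
  have hE0u : glevel D l B μ g 0 ≤ 1 / 2 * tsq (hess B (fun _ : Link D l => (1 : G))) + X⁻¹ / 4 := by
    have h8 := hUP l g hg (by
      have h9 : C4 * (l : ℝ) ^ p4 ≤ C4 * Λ ^ p4 :=
        mul_le_mul_of_nonneg_left (pow_le_pow_left₀ (by positivity) hl p4) (by positivity)
      have := hge _ (h9.trans m2)
      linarith)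
    rw [he0]
    refine h8.trans ?_
    have h10 : g ^ (2 / 3 : ℝ) * (l : ℝ) ^ (-(D : ℝ) / 3) *
        (lev (vred B D) (AdS B D) (0 / Nat.card (Subgroup.center G) ^ D) + 1) ≤
        g ^ (2 / 3 : ℝ) * (Lv + 1) := by
      have h11 : (l : ℝ) ^ (-(D : ℝ) / 3) ≤ 1 := by
        apply Real.rpow_le_one_of_one_le_of_nonpos hl1
        have : (0 : ℝ) ≤ D := Nat.cast_nonneg D
        linarith
      have h12 : 0 ≤ (l : ℝ) ^ (-(D : ℝ) / 3) := by positivity
      have h13 : 0 ≤ g ^ (2 / 3 : ℝ) := by positivity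
      have h14 := le_abs_self (lev (vred B D) (AdS B D)
        (0 / Nat.card (Subgroup.center G) ^ D) + 1)
      rw [mul_assoc]
      apply mul_le_mul_of_nonneg_left _ h13
      calc (l : ℝ) ^ (-(D : ℝ) / 3) *
            (lev (vred B D) (AdS B D) (0 / Nat.card (Subgroup.center G) ^ D) + 1) ≤
            (l : ℝ) ^ (-(D : ℝ) / 3) * Lv := mul_le_mul_of_nonneg_left h14 h12
        _ ≤ 1 * Lv := mul_le_mul_of_nonneg_right h11 hLv0
        _ ≤ Lv + 1 := by linarith
    have h15 : g ^ (2 / 3 : ℝ) * (Lv + 1) ≤ X⁻¹ / 4 := by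
      -- `g ≤ (4 (Lv + 1) X) ^ (-2)`
      set Z : ℝ := 4 * (Lv + 1) * X with hZ
      have hZ1 : 1 ≤ Z := by
        rw [hZ]
        nlinarith
      have hZ0 : 0 < Z := by linarith
      have h16 : g * Z ^ 2 ≤ 1 := by
        have e : Z ^ 2 = 16 * (Lv + 1) ^ 2 * X ^ 2 := by rw [hZ]; ring
        rw [e]
        exact hge _ m3
      have h17 : g ≤ Z⁻¹ ^ 2 := by
        rw [inv_pow, ← one_div, le_div_iff₀ (by positivity)]
        exact h16
      have h18 : g ^ (2 / 3 : ℝ) ≤ (Z⁻¹ ^ 2) ^ (2 / 3 : ℝ) :=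
        Real.rpow_le_rpow hg.le h17 (by norm_num)
      have h19 : (Z⁻¹ ^ 2) ^ (2 / 3 : ℝ) ≤ Z⁻¹ := by
        rw [← Real.rpow_natCast, ← Real.rpow_mul (by positivity)]
        have h20 : Z⁻¹ ^ (((2 : ℕ) : ℝ) * (2 / 3)) ≤ Z⁻¹ ^ (1 : ℝ) :=
          Real.rpow_le_rpow_of_exponent_ge (by positivity) (inv_le_one_of_one_le₀ hZ1)
            (by norm_num)
        rwa [Real.rpow_one] at h20
      have h21 : Z⁻¹ * (Lv + 1) = X⁻¹ / 4 := by
        rw [hZ]
        have : Lv + 1 ≠ 0 := by positivity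
        field_simp
      rw [← h21]
      exact mul_le_mul_of_nonneg_right (h18.trans h19) (by positivity)
    linarith
  have hKg : cK * Λ ^ (p1 + 2) * g ^ 2 ≤ X⁻¹ / 8 := by
    have h8 := hge _ m4
    have h9 : g ^ 2 ≤ g := by nlinarith
    have h10 : cK * Λ ^ (p1 + 2) * g ^ 2 ≤ cK * Λ ^ (p1 + 2) * g :=
      mul_le_mul_of_nonneg_left h9 (by positivity)
    have h11 : X⁻¹ / 8 * (8 * X) = 1 := by field_simp
    have h12 : cK * Λ ^ (p1 + 2) * g * (8 * X) ≤ X⁻¹ / 8 * (8 * X) := by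
      rw [h11]
      linarith
    exact h10.trans (le_of_mul_le_mul_right h12 (by positivity))
  obtain ⟨d, hd, hF⟩ := core μ hG B hτs hτg (η := X⁻¹) hδ0 (by positivity) (by positivity) hM2 hg
    hAW' hIMS hE0u hKg
  refine ⟨d, hd, fun F a1 a2 a3 a4 => (hF F a1 a2 a3 a4).trans ?_⟩
  have r1 : 2 / X⁻¹ + 1 / 4 ≤ M := by
    rw [div_inv_eq_mul]
    exact m6
  have r2 : M⁻¹ ≤ 2 * Real.sqrt (X⁻¹ / (4 * (cM * Λ ^ (p1 + 2) + 1))) := by
    set W : ℝ := X⁻¹ / (4 * (cM * Λ ^ (p1 + 2) + 1)) with hW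
    have hW0 : 0 < W := by positivity
    have hW1 : W ≤ 1 := by
      rw [hW, div_le_one (by positivity)]
      have : X⁻¹ ≤ 1 := inv_le_one_of_one_le₀ hX1
      have : 0 ≤ cM * Λ ^ (p1 + 2) := by positivity
      linarith
    have h8 : W ≤ Real.sqrt W := by
      apply Real.le_sqrt_of_sq_le
      nlinarith
    have h9 : M⁻¹ ≤ 2 * W := by
      have e : 2 * W = (2 * (cM * Λ ^ (p1 + 2) + 1) * X)⁻¹ := by
        rw [hW]
        field_simp
        ring
      rw [e]
      exact inv_anti₀ (by positivity) m5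
    linarith
  have r3 : Real.exp (-(2 * Real.sqrt (X⁻¹ / (4 * (cM * Λ ^ (p1 + 2) + 1)))) / g) ≤
      Real.exp (-M⁻¹ / g) := by
    apply Real.exp_le_exp.2
    apply div_le_div_of_nonneg_right _ hg.le
    linarith
  exact mul_le_mul r1 r3 (Real.exp_pos _).le hMpos.le

end

end Pool.Agent.Q154.LU.AGMU
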