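import Pool.Agent.Q77.LU.StmH

/-!
# Project LU, job CHART: assembly of the chart
-/

set_option autoImplicit false

namespace Pool.Agent.Q154.LU

open MeasureTheory Matrix Set Filter Topology
open scoped ContDiff Matrix.Norms.Frobenius
open Pool.Agent.Q77.LU

noncomputable section

variable {N n D l : ℕ} {G : Subgroup (UU N)}

lemma fro2_nonneg (M : Mt N) : 0 ≤ fro2 M := by
  unfold fro2
  rw [Matrix.trace, Complex.re_sum]
  apply Finset.sum_nonneg
  intro i _
  rw [Matrix.diag_apply, Matrix.mul_apply, Complex.re_sum]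
  apply Finset.sum_nonneg
  intro j _
  rw [Matrix.conjTranspose_apply]
  have h : (star (M j i) * M j i).re = Complex.normSq (M j i) := by
    rw [Complex.normSq_apply]
    simp [Complex.mul_re]
  rw [h]
  exact Complex.normSq_nonneg _

lemma fro2_smul (t : ℝ) (M : Mt N) : fro2 (t • M) = t ^ 2 * fro2 M := by
  unfold fro2
  rw [Matrix.conjTranspose_smul, star_trivial, Matrix.smul_mul, Matrix.mul_smul, smul_smul,
    Matrix.trace_smul, Complex.smul_re, smul_eq_mul]
  ring

lemma continuous_fro2 : Continuous (fun M : Mt N => fro2 M) := by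
  unfold fro2
  exact Complex.continuous_re.comp
    (Continuous.matrix_trace ((continuous_id.matrix_conjTranspose).matrix_mul continuous_id))

lemma lin_smul (B : LieBasis G n) (t : ℝ) (v : Fin n → ℝ) :
    lin B (fun a => t * v a) = t • lin B v := by
  unfold lin
  rw [Finset.smul_sum]
  apply Finset.sum_congr rfl
  intro a _
  rw [smul_smul]

lemma continuous_lin (B : LieBasis G n) : Continuous (fun v : Fin n → ℝ => lin B v) := by
  unfold lin
  apply continuous_finsetSum
  intro a _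
  exact (continuous_apply a).smul continuous_const

lemma vred_nonneg (B : LieBasis G n) (D : ℕ) (A : Fin D × Fin n → ℝ) : 0 ≤ vred B D A := by
  unfold vred
  apply mul_nonneg (by norm_num)
  apply Finset.sum_nonneg
  intro i _
  apply Finset.sum_nonneg
  intro j _
  split_ifs
  · exact fro2_nonneg _
  · exact le_rfl

lemma vred_hom (B : LieBasis G n) (D : ℕ) (t : ℝ) (A : Fin D × Fin n → ℝ) :
    vred B D (t • A) = t ^ 4 * vred B D A := by
  unfold vred
  rw [← mul_assoc, mul_comm (t ^ 4), mul_assoc]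
  congr 1
  rw [Finset.mul_sum]
  apply Finset.sum_congr rfl
  intro i _
  rw [Finset.mul_sum]
  apply Finset.sum_congr rfl
  intro j _
  split_ifs
  · have e1 : ∀ k : Fin D, lin B (fun a => (t • A) (k, a)) = t • lin B (fun a => A (k, a)) := by
      intro k
      rw [← lin_smul]
      rfl
    rw [e1 i, e1 j]
    have e2 : (t • lin B (fun a => A (i, a))) * (t • lin B (fun a => A (j, a))) -
        (t • lin B (fun a => A (j, a))) * (t • lin B (fun a => A (i, a))) =
        (t ^ 2) • (lin B (fun a => A (i, a)) * lin B (fun a => A (j, a)) -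
          lin B (fun a => A (j, a)) * lin B (fun a => A (i, a))) := by
      rw [Matrix.smul_mul, Matrix.mul_smul, smul_smul, Matrix.smul_mul, Matrix.mul_smul, smul_smul,
        ← smul_sub, pow_two]
    rw [e2, fro2_smul]
    ring
  · ring

lemma continuous_vred (B : LieBasis G n) (D : ℕ) :
    Continuous (fun A : Fin D × Fin n → ℝ => vred B D A) := by
  unfold vred
  apply continuous_const.mul
  apply continuous_finsetSum
  intro i _
  apply continuous_finsetSum
  intro j _
  have hl : ∀ k : Fin D, Continuous (fun A : Fin D × Fin n → ℝ => lin B (fun a => A (k, a))) := by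
    intro k
    exact (continuous_lin B).comp (continuous_pi fun a => continuous_apply (k, a))
  split_ifs
  · apply continuous_fro2.comp
    exact ((hl i).matrix_mul (hl j)).sub ((hl j).matrix_mul (hl i))
  · exact continuous_const

lemma n2_nonneg {ι : Type} [Fintype ι] (x : ι → ℝ) : 0 ≤ n2 x :=
  Finset.sum_nonneg fun _ _ => sq_nonneg _

lemma nx_nonneg {P Q : Type} [Fintype P] [Fintype Q] (x : (P → ℝ) × (Q → ℝ)) : 0 ≤ nx x :=
  add_nonneg (n2_nonneg _) (n2_nonneg _)

lemma lt_sq {a r s : ℝ} (h : a < r ^ 2) (hr : 0 < r) (hrs : r ≤ s) : a < s ^ 2 := by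
  have : r ^ 2 ≤ s ^ 2 := pow_le_pow_left₀ hr.le hrs 2
  linarith

lemma gCA_nonneg {P Q : Type} [Fintype P] [DecidableEq P] [Fintype Q] [DecidableEq Q]
    (f : (P → ℝ) × (Q → ℝ) → ℝ) (x : (P → ℝ) × (Q → ℝ)) : 0 ≤ gC f x + gA f x :=
  add_nonneg (Finset.sum_nonneg fun _ _ => sq_nonneg _) (Finset.sum_nonneg fun _ _ => sq_nonneg _)

/-- **CHART** -/
theorem t_CHART (h1 : S_TAYL) (h2 : S_SIM) (h3 : S_CHI) (h4 : S_UNIQ) (h5 : S_KIN) (h6 : S_LIFT)
    (h7 : S_SYMM) (h8 : S_HC) : S_CHART := by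
  intro N n D l hl G hG B mG bG μ hμ hμ' hNC hD dc
  obtain ⟨κ, hκ, hsim⟩ := h2 N n D G hG B hNC hD
  obtain ⟨A, K1, r1, hK1, hr1, hAs, hAt, htay⟩ := h1 N n D l G hG B hNC dc
  obtain ⟨r3, J, hr3, hJs, hJp, hJi, hint⟩ := h3 N n D l G hG B μ hNC dc
  obtain ⟨r4, hr4, hun, -⟩ := h4 N n D l G hG B hNC dc
  obtain ⟨K5, r5, hK5, hr5, hkin⟩ := h5 N n D l G hG B dc
  obtain ⟨r6, hr6, hlift⟩ := h6 N n D l G hG B hNC dc
  have hsym := h7 N n D l G hG B dc
  obtain ⟨-, -, hmag, -⟩ := h8 N n D l G hG B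
  obtain ⟨r7, hr7⟩ : ∃ r7 : ℝ, r7 = 1 / (2 * (K5 + 1)) := ⟨_, rfl⟩
  have hr70 : 0 < r7 := by rw [hr7]; positivity
  have hr71 : K5 * r7 ^ 2 ≤ 1 / 2 := by
    have e1 : (K5 + 1) * r7 = 1 / 2 := by rw [hr7]; field_simp
    have e2 : r7 ≤ 1 := by nlinarith
    nlinarith
  obtain ⟨r, hr⟩ : ∃ r : ℝ, r = min (min r1 r3) (min (min r4 r5) (min r6 r7)) := ⟨_, rfl⟩
  have hr0 : 0 < r := by
    rw [hr]
    exact lt_min (lt_min hr1 hr3) (lt_min (lt_min hr4 hr5) (lt_min hr6 hr70))
  have hrr1 : r ≤ r1 := by rw [hr]; exact le_trans (min_le_left _ _) (min_le_left _ _)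
  have hrr3 : r ≤ r3 := by rw [hr]; exact le_trans (min_le_left _ _) (min_le_right _ _)
  have hrr4 : r ≤ r4 := by
    rw [hr]; exact le_trans (min_le_right _ _) (le_trans (min_le_left _ _) (min_le_left _ _))
  have hrr5 : r ≤ r5 := by
    rw [hr]; exact le_trans (min_le_right _ _) (le_trans (min_le_left _ _) (min_le_right _ _))
  have hrr6 : r ≤ r6 := by
    rw [hr]; exact le_trans (min_le_right _ _) (le_trans (min_le_right _ _) (min_le_left _ _))
  have hrr7 : r ≤ r7 := by
    rw [hr]; exact le_trans (min_le_right _ _) (le_trans (min_le_right _ _) (min_le_right _ _))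
  have hwc : Continuous (fun x : (Fin D × Fin n → ℝ) × (Fin dc.M → ℝ) => magnetic (dc.ch x)) := by
    obtain ⟨f, hf, hfm⟩ := hmag
    have e1 : (fun x : (Fin D × Fin n → ℝ) × (Fin dc.M → ℝ) => magnetic (dc.ch x)) =
        fun x => f (fun e => mt (dc.ch x e)) := by
      funext x
      exact hfm _
    rw [e1]
    exact hf.continuous.comp (hsym 1 0).2.2.2.2.2.2.2.2.continuous
  have hl0 : (0 : ℝ) < (l : ℝ) ^ D := by
    have : 0 < l := Nat.pos_of_ne_zero hl.out
    positivity
  let L : Loc (Fin D × Fin n) (Fin dc.M) :=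
    { v := vred B D
      cont := continuous_vred B D
      nonneg := vred_nonneg B D
      hom := vred_hom B D
      κ := κ
      pos := hκ
      simon := hsim
      om := dc.om
      ompos := dc.ompos
      c4 := ((l : ℝ) ^ D)⁻¹
      c4pos := inv_pos.mpr hl0
      A := A
      Asymm := hAs
      Atr := hAt
      K := max K1 (2 * K5)
      K0 := le_trans hK1 (le_max_left _ _)
      r := r
      rpos := hr0
      w := fun x => magnetic (dc.ch x)
      wcont := hwc
      tay := by
        intro x hx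
        have e1 : nx x ≤ r1 ^ 2 := le_trans hx (pow_le_pow_left₀ hr0.le hrr1 2)
        refine le_trans (htay x e1) ?_
        apply mul_le_mul_of_nonneg_right (le_max_left _ _)
        have e2 : 0 ≤ nr x.1 := Real.sqrt_nonneg _
        have e3 : 0 ≤ nr x.2 := Real.sqrt_nonneg _
        have e4 := vred_nonneg B D x.1
        have e5 := n2_nonneg x.1
        have e6 := n2_nonneg x.2
        positivity
      J := J
      Jsm := hJs
      Jpos := hJp }
  have hkk : ∀ F : (Link D l → G) → ℝ, IsSmooth F → GaugeInv F → ∀ x, nx x < r ^ 2 →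
      (1 - max K1 (2 * K5) * nx x) * (gC (fun z => F (dc.ch z)) x + gA (fun z => F (dc.ch z)) x) ≤
        ∑ e, ∑ a, dlink B e a F (dc.ch x) ^ 2 ∧
      ∑ e, ∑ a, dlink B e a F (dc.ch x) ^ 2 ≤
        (1 + max K1 (2 * K5) * nx x) *
          (gC (fun z => F (dc.ch z)) x + gA (fun z => F (dc.ch z)) x) := by
    intro F hF hFg x hx
    have e1 := hkin F hF hFg x (lt_sq hx hr0 hrr5)
    have e2 : 0 ≤ gC (fun z => F (dc.ch z)) x + gA (fun z => F (dc.ch z)) x := gCA_nonneg _ _
    have e3 : 0 ≤ ∑ e, ∑ a, dlink B e a F (dc.ch x) ^ 2 :=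
      Finset.sum_nonneg fun _ _ => Finset.sum_nonneg fun _ _ => sq_nonneg _
    have e4 : K5 * nx x ≤ 1 / 2 := by
      have : nx x ≤ r7 ^ 2 := (lt_sq hx hr0 hrr7).le
      calc K5 * nx x ≤ K5 * r7 ^ 2 := mul_le_mul_of_nonneg_left this hK5
        _ ≤ 1 / 2 := hr71
    have e5 : 0 ≤ K5 * nx x := mul_nonneg hK5 (nx_nonneg x)
    have e6 : 2 * (K5 * nx x) ≤ max K1 (2 * K5) * nx x := by
      have := mul_le_mul_of_nonneg_right (le_max_right K1 (2 * K5)) (nx_nonneg x)
      linarith
    generalize (gC (fun z => F (dc.ch z)) x + gA (fun z => F (dc.ch z)) x) = g at *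
    generalize (∑ e, ∑ a, dlink B e a F (dc.ch x) ^ 2) = S at *
    generalize K5 * nx x = a at *
    generalize max K1 (2 * K5) * nx x = b at *
    rw [abs_le] at e1
    obtain ⟨e7, e8⟩ := e1
    constructor
    · have f1 : g ≤ (1 + a) * S := by linarith
      have f2 : (1 - b) * g ≤ (1 - a) * g := by
        apply mul_le_mul_of_nonneg_right _ e2
        linarith
      have f3 : (1 - a) * g ≤ (1 - a) * ((1 + a) * S) :=
        mul_le_mul_of_nonneg_left f1 (by linarith)
      have f4 : (1 - a) * ((1 + a) * S) = S - a ^ 2 * S := by ring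
      have f5 : 0 ≤ a ^ 2 * S := by positivity
      linarith
    · have f1 : (1 - a) * S ≤ g := by linarith
      have f2 : (1 + 2 * a) * g ≤ (1 + b) * g := by
        apply mul_le_mul_of_nonneg_right _ e2
        linarith
      have f3 : (1 + 2 * a) * ((1 - a) * S) ≤ (1 + 2 * a) * g :=
        mul_le_mul_of_nonneg_left f1 (by linarith)
      have f4 : (1 + 2 * a) * ((1 - a) * S) = S + a * (1 - 2 * a) * S := by ring
      have f5 : 0 ≤ a * (1 - 2 * a) * S := by
        apply mul_nonneg (mul_nonneg e5 (by linarith)) e3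
      linarith
  refine ⟨L, ?_⟩
  refine ⟨rfl, rfl, rfl, rfl, hJi, ?_, ?_, ?_, ?_, ?_⟩
  · intro ρ hρ hρr Φ h1 h2 h3 h4
    exact hint ρ hρ (le_trans hρr hrr3) Φ h1 h2 h3 h4
  · intro x ρ hx hρ hρr hO
    obtain ⟨γ, z, y, hz, hy, hxy⟩ := hO
    have hx' : nx x < r4 ^ 2 := lt_sq hx hr0 hrr4
    have hy' : nx y < r4 ^ 2 := lt_sq hy hρ (le_trans hρr hrr4)
    obtain ⟨-, hxs⟩ := hun γ z x y hz hx' hy' hxy
    have e1 := hsym (γ 0) y
    have e2 : nx x = nx y := by
      rw [hxs]
      unfold nx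
      rw [e1.2.1, e1.2.2.1]
    rw [e2]
    exact hy
  · intro F hF hFg x hx
    exact (hkk F hF hFg x hx).1
  · intro F hF hFg x hx
    exact (hkk F hF hFg x hx).2
  · intro ρ hρ hρr f hf hfs hfi
    obtain ⟨F, hF1, hF2, hF3, hF4, hF5⟩ := hlift ρ hρ (lt_of_lt_of_le hρr hrr6) f hf hfs hfi
    exact ⟨F, hF1, hF2, hF3, fun x hx => hF4 x (lt_sq hx hr0 hrr6), hF5⟩

end

end Pool.Agent.Q154.LU
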